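import Mathlib

set_option autoImplicit false

/-!
# A contracting forward composition of inner functions with full Denjoy-Wolff set

`F_n = M_n ∘ g_n ∘ ⋯ ∘ g_0` where `M_n (z) = (z + a_n) / (1 + a_n z)` with `a_n = n / (n + 1)` and
where `g_n (z) = z (z + c_n) / (1 + c_n z)`; here `c_n = 0` if `n` is a power of `4` and `c_n` is
extremely close to `1` otherwise. The squarings make the composition contracting. Between the
squarings the boundary values of `g_n ∘ ⋯ ∘ g_0` do not move much, and so a Borel-Cantelli argument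
at the times `4 ^ k` is sufficient.
-/

open Filter Topology Set Metric MeasureTheory

namespace Pool.Agent.Results.MP_9b5b1e_an.ContractingFullDenjoyWolff

/-- An inner function: a holomorphic self-map of the unit disc whose radial limits exist and have
modulus one at almost every point of the circle. -/
def IsInner (f : ℂ → ℂ) : Prop :=
  DifferentiableOn ℂ f (ball 0 1) ∧ MapsTo f (ball 0 1) (ball 0 1) ∧
    ∀ᵐ θ : ℝ, ∃ w : ℂ, ‖w‖ = 1 ∧
      Tendsto (fun r : ℝ => f (r * Complex.exp (θ * Complex.I))) (𝓝[<] 1) (𝓝 w)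

/-- The hyperbolic distance of the unit disc (of curvature `-1`). -/
noncomputable def hypDist (z w : ℂ) : ℝ :=
  2 * Real.artanh ‖(z - w) / (1 - (starRingEnd ℂ) w * z)‖

/-- The forward composition `F_n = f_n ∘ ⋯ ∘ f_1 ∘ f_0`. -/
def forward (f : ℕ → ℂ → ℂ) : ℕ → ℂ → ℂ
  | 0 => f 0
  | n + 1 => f (n + 1) ∘ forward f n

/-- The Denjoy-Wolff set of the sequence `F`: the points `ζ` of the unit circle at which all `F_n`
have a radial limit `w_n = F_n (ζ)` and `|F_n (ζ) - F_n (0)| → 0`. -/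
def DenjoyWolffSet (F : ℕ → ℂ → ℂ) : Set ℂ :=
  {ζ | ‖ζ‖ = 1 ∧ ∃ w : ℕ → ℂ, (∀ n, Tendsto (fun r : ℝ => F n (r * ζ)) (𝓝[<] 1) (𝓝 (w n))) ∧
    Tendsto (fun n => ‖w n - F n 0‖) atTop (𝓝 0)}

/-! ### Moebius maps -/

/-- the Moebius map -/
noncomputable def B (a : ℝ) (z : ℂ) : ℂ := (z + a) / (1 + a * z)

theorem den_ne {a : ℝ} (ha : |a| < 1) {z : ℂ} (hz : ‖z‖ ≤ 1) : 1 + (a : ℂ) * z ≠ 0 := by
  intro h
  have h1 : (a : ℂ) * z = -1 := by linear_combination h
  have h2 : ‖(a : ℂ) * z‖ = 1 := by rw [h1]; simp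
  rw [norm_mul, Complex.norm_real, Real.norm_eq_abs] at h2
  nlinarith [abs_nonneg a, norm_nonneg z]

theorem key_id (a : ℝ) (z : ℂ) :
    ‖1 + (a : ℂ) * z‖ ^ 2 - ‖z + a‖ ^ 2 = (1 - a ^ 2) * (1 - ‖z‖ ^ 2) := by
  rw [← Complex.normSq_eq_norm_sq, ← Complex.normSq_eq_norm_sq, ← Complex.normSq_eq_norm_sq,
    Complex.normSq_apply, Complex.normSq_apply, Complex.normSq_apply]
  simp
  ring

theorem norm_B_le {a : ℝ} (ha : |a| < 1) {z : ℂ} (hz : ‖z‖ ≤ 1) : ‖B a z‖ ≤ 1 := by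
  have h0 : 0 < ‖1 + (a : ℂ) * z‖ := norm_pos_iff.2 (den_ne ha hz)
  unfold B
  rw [norm_div, div_le_one h0]
  have h1 := key_id a z
  have h2 : a ^ 2 < 1 := by rw [← sq_abs]; nlinarith [abs_nonneg a]
  have h3 : 0 ≤ 1 - ‖z‖ ^ 2 := by nlinarith [norm_nonneg z]
  have h4 : 0 ≤ (1 - a ^ 2) * (1 - ‖z‖ ^ 2) := mul_nonneg (by linarith) h3
  exact (abs_le_of_sq_le_sq' (by linarith) (norm_nonneg _)).2

theorem norm_B_lt {a : ℝ} (ha : |a| < 1) {z : ℂ} (hz : ‖z‖ < 1) : ‖B a z‖ < 1 := by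
  have h0 : 0 < ‖1 + (a : ℂ) * z‖ := norm_pos_iff.2 (den_ne ha hz.le)
  unfold B
  rw [norm_div, div_lt_one h0]
  have h1 := key_id a z
  have h2 : a ^ 2 < 1 := by rw [← sq_abs]; nlinarith [abs_nonneg a]
  have h3 : 0 < 1 - ‖z‖ ^ 2 := by nlinarith [norm_nonneg z]
  have h4 : 0 < (1 - a ^ 2) * (1 - ‖z‖ ^ 2) := mul_pos (by linarith) h3
  exact abs_lt_of_sq_lt_sq' (by linarith) (norm_nonneg _) |>.2

theorem norm_B_eq {a : ℝ} (ha : |a| < 1) {z : ℂ} (hz : ‖z‖ = 1) : ‖B a z‖ = 1 := by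
  have h0 : 0 < ‖1 + (a : ℂ) * z‖ := norm_pos_iff.2 (den_ne ha hz.le)
  unfold B
  rw [norm_div, div_eq_one_iff_eq h0.ne']
  have h1 := key_id a z
  rw [hz] at h1
  have h2 : ‖z + a‖ ^ 2 = ‖1 + (a : ℂ) * z‖ ^ 2 := by linarith
  exact (sq_eq_sq₀ (norm_nonneg _) (norm_nonneg _)).1 h2

theorem B_diff {a : ℝ} (ha : |a| < 1) {z : ℂ} (hz : ‖z‖ ≤ 1) : DifferentiableAt ℂ (B a) z := by
  unfold B
  exact ((differentiableAt_id.add_const _).div
    ((differentiableAt_id.const_mul _).const_add _) (den_ne ha hz))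

theorem B_neg_B {a : ℝ} (ha : |a| < 1) {z : ℂ} (hz : ‖z‖ ≤ 1) : B (-a) (B a z) = z := by
  have h1 := den_ne ha hz
  have h2 := den_ne (a := -a) (by rwa [abs_neg]) (norm_B_le ha hz)
  unfold B at h2 ⊢
  rw [div_eq_iff h2]
  push_cast
  generalize hD : 1 + (a : ℂ) * z = D at *
  field_simp
  rw [← hD]
  ring

theorem B_B_neg {a : ℝ} (ha : |a| < 1) {z : ℂ} (hz : ‖z‖ ≤ 1) : B a (B (-a) z) = z := by
  have := B_neg_B (a := -a) (by rwa [abs_neg]) hz
  rwa [neg_neg] at this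

/-- invariance of the pseudo-hyperbolic distance -/
theorem pseudo_B {a : ℝ} (ha : |a| < 1) {z w : ℂ} (hz : ‖z‖ < 1) (hw : ‖w‖ < 1) :
    ‖(B a z - B a w) / (1 - (starRingEnd ℂ) (B a w) * B a z)‖ =
      ‖(z - w) / (1 - (starRingEnd ℂ) w * z)‖ := by
  have h1 := den_ne ha hz.le
  have h2 := den_ne ha hw.le
  have h2' : 1 + (a : ℂ) * (starRingEnd ℂ) w ≠ 0 := by
    intro h
    apply h2
    have := congrArg (starRingEnd ℂ) h
    simpa using this
  have ha2 : (1 : ℂ) - a ^ 2 ≠ 0 := by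
    have : a ^ 2 < 1 := by rw [← sq_abs]; nlinarith [abs_nonneg a]
    have h4 : (1 : ℝ) - a ^ 2 ≠ 0 := by linarith
    exact_mod_cast h4
  have hzw : 1 - (starRingEnd ℂ) w * z ≠ 0 := by
    intro h
    have h5 : (starRingEnd ℂ) w * z = 1 := by linear_combination -h
    have h6 : ‖(starRingEnd ℂ) w * z‖ = 1 := by rw [h5]; simp
    rw [norm_mul, RCLike.norm_conj] at h6
    nlinarith [norm_nonneg z, norm_nonneg w]
  have hnum : B a z - B a w = (1 - a ^ 2) * (z - w) / ((1 + a * z) * (1 + a * w)) := by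
    unfold B
    rw [div_sub_div _ _ h1 h2]
    congr 1
    ring
  have hden : 1 - (starRingEnd ℂ) (B a w) * B a z =
      (1 - a ^ 2) * (1 - (starRingEnd ℂ) w * z) / ((1 + a * z) * (1 + a * (starRingEnd ℂ) w)) := by
    unfold B
    rw [map_div₀, map_add, map_add, map_mul, map_one, Complex.conj_ofReal, div_mul_div_comm,
      eq_div_iff (mul_ne_zero h1 h2'), sub_mul, one_mul, mul_comm (1 + (a : ℂ) * z),
      div_mul_cancel₀ _ (mul_ne_zero h2' h1)]
    ring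
  rw [hnum, hden]
  have h3 : (1 - (a : ℂ) ^ 2) * (z - w) / ((1 + a * z) * (1 + a * w)) /
      ((1 - a ^ 2) * (1 - (starRingEnd ℂ) w * z) / ((1 + a * z) * (1 + a * (starRingEnd ℂ) w))) =
      (z - w) / (1 - (starRingEnd ℂ) w * z) * ((1 + a * (starRingEnd ℂ) w) / (1 + a * w)) := by
    field_simp
  rw [h3, norm_mul]
  have h4 : ‖(1 + a * (starRingEnd ℂ) w) / (1 + a * w)‖ = 1 := by
    rw [norm_div]
    have h5 : ‖1 + a * (starRingEnd ℂ) w‖ = ‖1 + a * w‖ := by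
      have : 1 + (a : ℂ) * (starRingEnd ℂ) w = (starRingEnd ℂ) (1 + a * w) := by simp
      rw [this, RCLike.norm_conj]
    rw [h5]
    exact div_self (norm_ne_zero_iff.2 h2)
  rw [h4, mul_one]

/-! ### The maps `g_n` and their compositions -/

open Classical in
/-- the parameters: zero at the powers of four, close to one otherwise -/
noncomputable def c (n : ℕ) : ℝ := if ∃ k : ℕ, n = 4 ^ k then 0 else 1 - (1 / 4) ^ (n + 1)

theorem c_pow (k : ℕ) : c (4 ^ k) = 0 := by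
  unfold c; rw [if_pos ⟨k, rfl⟩]

theorem c_nonneg (n : ℕ) : 0 ≤ c n := by
  unfold c
  split_ifs
  · exact le_rfl
  · have : ((1 : ℝ) / 4) ^ (n + 1) ≤ 1 := pow_le_one₀ (by norm_num) (by norm_num)
    linarith

theorem c_lt (n : ℕ) : c n < 1 := by
  unfold c
  split_ifs
  · exact one_pos
  · have : (0 : ℝ) < (1 / 4) ^ (n + 1) := by positivity
    linarith

theorem abs_c (n : ℕ) : |c n| < 1 := by rw [abs_of_nonneg (c_nonneg n)]; exact c_lt n

/-- the Blaschke product of degree two with zeros `0` and `- c n` -/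
noncomputable def g (n : ℕ) (z : ℂ) : ℂ := z * B (c n) z

/-- the compositions of the `g n` -/
noncomputable def G : ℕ → ℂ → ℂ
  | 0 => g 0
  | n + 1 => g (n + 1) ∘ G n

theorem norm_g_le (n : ℕ) {z : ℂ} (hz : ‖z‖ ≤ 1) : ‖g n z‖ ≤ ‖z‖ := by
  unfold g
  rw [norm_mul]
  exact mul_le_of_le_one_right (norm_nonneg _) (norm_B_le (abs_c n) hz)

theorem norm_g_eq (n : ℕ) {z : ℂ} (hz : ‖z‖ = 1) : ‖g n z‖ = 1 := by
  unfold g
  rw [norm_mul, hz, norm_B_eq (abs_c n) hz, one_mul]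

theorem g_zero (n : ℕ) : g n 0 = 0 := by simp [g]

theorem g_pow (k : ℕ) (z : ℂ) : g (4 ^ k) z = z ^ 2 := by
  unfold g B
  rw [c_pow]
  simp
  ring

theorem g_diff (n : ℕ) {z : ℂ} (hz : ‖z‖ ≤ 1) : DifferentiableAt ℂ (g n) z :=
  differentiableAt_id.mul (B_diff (abs_c n) hz)

theorem norm_G_le (n : ℕ) {z : ℂ} (hz : ‖z‖ ≤ 1) : ‖G n z‖ ≤ ‖z‖ := by
  induction n with
  | zero => exact norm_g_le 0 hz
  | succ n ih =>
    show ‖g (n + 1) (G n z)‖ ≤ _
    exact (norm_g_le (n + 1) (ih.trans hz)).trans ih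

theorem norm_G_eq (n : ℕ) {z : ℂ} (hz : ‖z‖ = 1) : ‖G n z‖ = 1 := by
  induction n with
  | zero => exact norm_g_eq 0 hz
  | succ n ih =>
    show ‖g (n + 1) (G n z)‖ = _
    exact norm_g_eq (n + 1) ih

theorem G_zero (n : ℕ) : G n 0 = 0 := by
  induction n with
  | zero => exact g_zero 0
  | succ n ih =>
    show g (n + 1) (G n 0) = _
    rw [ih, g_zero]

theorem G_diff (n : ℕ) {z : ℂ} (hz : ‖z‖ ≤ 1) : DifferentiableAt ℂ (G n) z := by
  induction n with
  | zero => exact g_diff 0 hz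
  | succ n ih =>
    exact (g_diff (n + 1) ((norm_G_le n hz).trans hz)).comp z ih

theorem norm_G_anti {z : ℂ} (hz : ‖z‖ ≤ 1) : Antitone fun n => ‖G n z‖ :=
  antitone_nat_of_succ_le fun n => norm_g_le (n + 1) ((norm_G_le n hz).trans hz)

theorem norm_G_pow {z : ℂ} (hz : ‖z‖ ≤ 1) (k : ℕ) : ‖G (4 ^ k) z‖ ≤ ‖z‖ ^ (k + 2) := by
  induction k with
  | zero =>
    have h0 : G (4 ^ 0) z = (G 0 z) ^ 2 := by
      rw [← g_pow 0, pow_zero]
      rfl
    rw [h0, norm_pow, zero_add]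
    exact pow_le_pow_left₀ (norm_nonneg _) (norm_G_le 0 hz) 2
  | succ k ih =>
    obtain ⟨m, hm⟩ : ∃ m, 4 ^ (k + 1) = m + 1 := ⟨4 ^ (k + 1) - 1, by
      have : 0 < 4 ^ (k + 1) := by positivity
      omega⟩
    have h1 : G (4 ^ (k + 1)) z = (G m z) ^ 2 := by
      rw [hm]
      show g (m + 1) (G m z) = _
      rw [← hm, g_pow]
    have h2 : 4 ^ k ≤ m := by
      have : 4 ^ (k + 1) = 4 * 4 ^ k := by ring
      have : 0 < 4 ^ k := by positivity
      omega
    have h3 : ‖G m z‖ ≤ ‖G (4 ^ k) z‖ := norm_G_anti hz h2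
    rw [h1, norm_pow, pow_two]
    have h4 : ‖G m z‖ ≤ ‖z‖ := norm_G_le m hz
    calc ‖G m z‖ * ‖G m z‖ ≤ ‖z‖ ^ (k + 2) * ‖z‖ := by gcongr; exact h3.trans ih
      _ = ‖z‖ ^ (k + 1 + 2) := by ring

theorem G_tendsto {z : ℂ} (hz : ‖z‖ < 1) : Tendsto (fun n => G n z) atTop (𝓝 0) := by
  rw [tendsto_zero_iff_norm_tendsto_zero, Metric.tendsto_atTop]
  intro ε hε
  obtain ⟨k, hk⟩ := exists_pow_lt_of_lt_one hε hz
  refine ⟨4 ^ k, fun n hn => ?_⟩
  rw [dist_zero_right, norm_norm]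
  calc ‖G n z‖ ≤ ‖G (4 ^ k) z‖ := norm_G_anti hz.le hn
    _ ≤ ‖z‖ ^ (k + 2) := norm_G_pow hz.le k
    _ ≤ ‖z‖ ^ k := pow_le_pow_of_le_one (norm_nonneg _) hz.le (by omega)
    _ < ε := hk

/-! ### The composition -/

/-- the positions `a n = n / (n + 1)` -/
noncomputable def a (n : ℕ) : ℝ := 1 - 1 / ((n : ℝ) + 1)

theorem a_nonneg (n : ℕ) : 0 ≤ a n := by
  unfold a
  have : 1 / ((n : ℝ) + 1) ≤ 1 := by
    rw [div_le_one (by positivity)]
    linarith [(Nat.cast_nonneg n : (0 : ℝ) ≤ n)]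
  linarith

theorem a_lt (n : ℕ) : a n < 1 := by
  unfold a
  have : 0 < 1 / ((n : ℝ) + 1) := by positivity
  linarith

theorem abs_a (n : ℕ) : |a n| < 1 := by rw [abs_of_nonneg (a_nonneg n)]; exact a_lt n

/-- the inner functions -/
noncomputable def f : ℕ → ℂ → ℂ
  | 0 => fun z => B (a 0) (g 0 z)
  | n + 1 => fun z => B (a (n + 1)) (g (n + 1) (B (-a n) z))

theorem forward_eq (n : ℕ) {z : ℂ} (hz : ‖z‖ ≤ 1) : forward f n z = B (a n) (G n z) := by
  induction n with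
  | zero => rfl
  | succ n ih =>
    show f (n + 1) (forward f n z) = _
    rw [ih]
    show B (a (n + 1)) (g (n + 1) (B (-a n) (B (a n) (G n z)))) = B (a (n + 1)) (g (n + 1) (G n z))
    rw [B_neg_B (abs_a n) ((norm_G_le n hz).trans hz)]

theorem abs_neg_a (n : ℕ) : |-a n| < 1 := by rw [abs_neg]; exact abs_a n

theorem norm_g_lt (n : ℕ) {z : ℂ} (hz : ‖z‖ < 1) : ‖g n z‖ < 1 := (norm_g_le n hz.le).trans_lt hz

theorem radial {h : ℂ → ℂ} {ζ : ℂ} (hh : ContinuousAt h ζ) :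
    Tendsto (fun r : ℝ => h (r * ζ)) (𝓝[<] 1) (𝓝 (h ζ)) := by
  have h1 : ContinuousAt (fun r : ℝ => (r : ℂ) * ζ) 1 := by fun_prop
  have h2 : Tendsto (fun r : ℝ => (r : ℂ) * ζ) (𝓝 1) (𝓝 ζ) := by
    have := h1.tendsto
    simpa using this
  exact (hh.tendsto.comp h2).mono_left nhdsWithin_le_nhds

theorem inner_of {h : ℂ → ℂ} (h1 : ∀ z, ‖z‖ ≤ 1 → DifferentiableAt ℂ h z)
    (h2 : ∀ z, ‖z‖ < 1 → ‖h z‖ < 1) (h3 : ∀ z, ‖z‖ = 1 → ‖h z‖ = 1) : IsInner h := by
  refine ⟨fun z hz => (h1 z (mem_ball_zero_iff.1 hz).le).differentiableWithinAt, fun z hz => ?_,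
    Eventually.of_forall fun θ => ⟨_, h3 _ (Complex.norm_exp_ofReal_mul_I θ), ?_⟩⟩
  · rw [mem_ball_zero_iff] at hz ⊢
    exact h2 z hz
  · exact radial (h1 _ (Complex.norm_exp_ofReal_mul_I θ).le).continuousAt

theorem f_inner (n : ℕ) : IsInner (f n) := by
  cases n with
  | zero =>
    apply inner_of
    · intro z hz
      exact (B_diff (abs_a 0) ((norm_g_le 0 hz).trans hz)).comp z (g_diff 0 hz)
    · intro z hz
      exact norm_B_lt (abs_a 0) (norm_g_lt 0 hz)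
    · intro z hz
      exact norm_B_eq (abs_a 0) (norm_g_eq 0 hz)
  | succ n =>
    apply inner_of
    · intro z hz
      have h1 := norm_B_le (abs_neg_a n) hz
      exact (B_diff (abs_a (n + 1)) ((norm_g_le (n + 1) h1).trans h1)).comp z
        ((g_diff (n + 1) h1).comp z (B_diff (abs_neg_a n) hz))
    · intro z hz
      exact norm_B_lt (abs_a _) (norm_g_lt _ (norm_B_lt (abs_neg_a n) hz))
    · intro z hz
      exact norm_B_eq (abs_a _) (norm_g_eq _ (norm_B_eq (abs_neg_a n) hz))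

/-- `g n` is not injective on the disc -/
theorem g_not_inj (n : ℕ) : ∃ z w : ℂ, ‖z‖ < 1 ∧ ‖w‖ < 1 ∧ z ≠ w ∧ g n z = g n w := by
  by_cases h : c n = 0
  · refine ⟨1 / 2, -1 / 2, by norm_num, by norm_num, by norm_num, ?_⟩
    unfold g B
    rw [h]
    norm_num
  · refine ⟨0, -(c n : ℂ), by simp, ?_, ?_, ?_⟩
    · rw [norm_neg, Complex.norm_real, Real.norm_eq_abs]
      exact abs_c n
    · intro h1
      apply h
      have : (c n : ℂ) = 0 := neg_eq_zero.1 h1.symm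
      exact_mod_cast this
    · unfold g B
      simp

theorem f_not_inj (n : ℕ) : ¬ InjOn (f n) (ball 0 1) := by
  intro hinj
  obtain ⟨z, w, hz, hw, hne, he⟩ := g_not_inj n
  cases n with
  | zero =>
    apply hne
    apply hinj (mem_ball_zero_iff.2 hz) (mem_ball_zero_iff.2 hw)
    show B (a 0) (g 0 z) = B (a 0) (g 0 w)
    rw [he]
  | succ n =>
    have h1 : B (a n) z = B (a n) w := by
      apply hinj (mem_ball_zero_iff.2 (norm_B_lt (abs_a n) hz))
        (mem_ball_zero_iff.2 (norm_B_lt (abs_a n) hw))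
      show B (a (n + 1)) (g (n + 1) (B (-a n) (B (a n) z))) =
        B (a (n + 1)) (g (n + 1) (B (-a n) (B (a n) w)))
      rw [B_neg_B (abs_a n) hz.le, B_neg_B (abs_a n) hw.le, he]
    apply hne
    rw [← B_neg_B (abs_a n) hz.le, h1, B_neg_B (abs_a n) hw.le]

theorem a_tendsto : Tendsto a atTop (𝓝 1) := by
  have h1 : Tendsto (fun n : ℕ => 1 / ((n : ℝ) + 1)) atTop (𝓝 0) :=
    tendsto_one_div_add_atTop_nhds_zero_nat
  have h2 := h1.const_sub 1
  rw [sub_zero] at h2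
  exact h2

theorem B_near_one {n : ℕ} {z : ℂ} (hz : ‖z‖ ≤ 1) :
    ‖B (a n) z - 1‖ * ‖1 + (a n : ℂ) * z‖ ≤ 2 * (1 / ((n : ℝ) + 1)) := by
  have h1 := den_ne (abs_a n) hz
  have h2 : B (a n) z - 1 = (1 - a n) * (z - 1) / (1 + (a n : ℂ) * z) := by
    unfold B
    rw [div_sub_one h1]
    congr 1
    ring
  rw [h2, norm_div, norm_mul, div_mul_cancel₀ _ (norm_ne_zero_iff.2 h1)]
  have h3 : ‖(1 - (a n : ℂ))‖ = 1 / ((n : ℝ) + 1) := by
    have : (1 - (a n : ℂ)) = ((1 / ((n : ℝ) + 1) : ℝ) : ℂ) := by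
      unfold a; push_cast; ring
    rw [this, Complex.norm_real, Real.norm_of_nonneg (by positivity)]
  rw [h3]
  have h4 : ‖z - 1‖ ≤ 2 := by
    have := norm_sub_le z 1
    rw [norm_one] at this
    linarith
  have h5 : 0 ≤ 1 / ((n : ℝ) + 1) := by positivity
  nlinarith

/-- interior orbits converge to `1` -/
theorem forward_tendsto {z : ℂ} (hz : ‖z‖ < 1) : Tendsto (fun n => forward f n z) atTop (𝓝 1) := by
  have h1 : Tendsto (fun n => (G n z + (a n : ℂ)) / (1 + (a n : ℂ) * G n z)) atTop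
      (𝓝 ((0 + ((1 : ℝ) : ℂ)) / (1 + ((1 : ℝ) : ℂ) * 0))) := by
    have h2 : Tendsto (fun n => (a n : ℂ)) atTop (𝓝 ((1 : ℝ) : ℂ)) :=
      (Complex.continuous_ofReal.tendsto 1).comp a_tendsto
    have h3 := G_tendsto hz
    exact (h3.add h2).div ((h2.mul h3).const_add 1) (by simp)
  have h4 : (0 + ((1 : ℝ) : ℂ)) / (1 + ((1 : ℝ) : ℂ) * 0) = 1 := by simp
  rw [h4] at h1
  refine h1.congr fun n => ?_
  rw [forward_eq n hz.le]
  rfl

theorem contracting {z w : ℂ} (hz : ‖z‖ < 1) (hw : ‖w‖ < 1) :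
    Tendsto (fun n => hypDist (forward f n z) (forward f n w)) atTop (𝓝 0) := by
  have h1 : ∀ n, hypDist (forward f n z) (forward f n w) =
      2 * Real.artanh ‖(G n z - G n w) / (1 - (starRingEnd ℂ) (G n w) * G n z)‖ := by
    intro n
    unfold hypDist
    rw [forward_eq n hz.le, forward_eq n hw.le, pseudo_B (abs_a n)
      ((norm_G_le n hz.le).trans_lt hz) ((norm_G_le n hw.le).trans_lt hw)]
  have h2 : Tendsto (fun n => ‖(G n z - G n w) / (1 - (starRingEnd ℂ) (G n w) * G n z)‖) atTop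
      (𝓝 0) := by
    have h3 := G_tendsto hz
    have h4 := G_tendsto hw
    have h5 : Tendsto (fun n => (starRingEnd ℂ) (G n w)) atTop (𝓝 0) := by
      have := (Complex.continuous_conj.tendsto 0).comp h4
      simpa [Function.comp_def] using this
    have h6 := ((h3.sub h4).div ((h5.mul h3).const_sub 1) (by simp)).norm
    simpa using h6
  have h3 : ContinuousAt (fun x : ℝ => 2 * Real.artanh x) 0 := by
    unfold Real.artanh
    apply ContinuousAt.mul continuousAt_const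
    apply ContinuousAt.log
    · apply Real.continuous_sqrt.continuousAt.comp
      apply ContinuousAt.div (by fun_prop) (by fun_prop) (by norm_num)
    · norm_num
  have h4 := h3.tendsto.comp h2
  have h5 : (2 : ℝ) * Real.artanh 0 = 0 := by simp
  rw [h5] at h4
  exact h4.congr fun n => (h1 n).symm

/-! ### Boundary values -/

theorem sq_id (s : ℝ) {w : ℂ} (hw : ‖w‖ = 1) :
    ‖1 + (s : ℂ) * w‖ ^ 2 = (1 - s) ^ 2 + s * ‖1 + w‖ ^ 2 := by
  have h1 : w.re ^ 2 + w.im ^ 2 = 1 := by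
    have := Complex.sq_norm w
    rw [hw, Complex.normSq_apply] at this
    nlinarith
  rw [← Complex.normSq_eq_norm_sq, ← Complex.normSq_eq_norm_sq, Complex.normSq_apply,
    Complex.normSq_apply]
  simp
  linear_combination (s ^ 2 - s) * h1

/-- one step away from the powers of four -/
theorem step {n : ℕ} (hn : ¬ ∃ k : ℕ, n = 4 ^ k) {w : ℂ} (hw : ‖w‖ = 1) {d : ℝ} (hd : 0 < d)
    (hdw : d ≤ ‖1 + w‖) : ‖1 + w‖ - 4 * (1 / 4) ^ (n + 1) / d ≤ ‖1 + g n w‖ := by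
  have hc : c n = 1 - (1 / 4) ^ (n + 1) := by unfold c; rw [if_neg hn]
  have hc0 : 1 / 4 ≤ c n := by
    rw [hc]
    have : ((1 : ℝ) / 4) ^ (n + 1) ≤ (1 / 4) ^ 1 :=
      pow_le_pow_of_le_one (by norm_num) (by norm_num) (by omega)
    linarith
  have h1 := den_ne (abs_c n) hw.le
  have h2 : g n w - w = w * ((1 - c n) * (w - 1)) / (1 + (c n : ℂ) * w) := by
    unfold g B
    rw [← mul_div_assoc, div_sub' h1]
    congr 1
    ring
  have h3 : d / 2 ≤ ‖1 + (c n : ℂ) * w‖ := by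
    have h4 := sq_id (c n) hw
    apply (abs_le_of_sq_le_sq' _ (norm_nonneg _)).2
    rw [h4]
    have h5 : d ^ 2 ≤ ‖1 + w‖ ^ 2 := pow_le_pow_left₀ hd.le hdw 2
    nlinarith [sq_nonneg (1 - c n), sq_nonneg ‖1 + w‖]
  have h4 : ‖g n w - w‖ ≤ 4 * (1 / 4) ^ (n + 1) / d := by
    rw [h2, norm_div, norm_mul, hw, one_mul, norm_mul]
    have h5 : ‖(1 - (c n : ℂ))‖ = (1 / 4) ^ (n + 1) := by
      have : (1 - (c n : ℂ)) = (((1 / 4) ^ (n + 1) : ℝ) : ℂ) := by
        rw [hc]; push_cast; ring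
      rw [this, Complex.norm_real, Real.norm_of_nonneg (by positivity)]
    have h6 : ‖w - 1‖ ≤ 2 := by
      have := norm_sub_le w 1
      rw [norm_one] at this
      linarith
    rw [h5]
    calc (1 / 4) ^ (n + 1) * ‖w - 1‖ / ‖1 + (c n : ℂ) * w‖ ≤ (1 / 4) ^ (n + 1) * 2 / (d / 2) := by
          gcongr
      _ = 4 * (1 / 4) ^ (n + 1) / d := by field_simp; norm_num
  have h5 : ‖1 + w‖ ≤ ‖1 + g n w‖ + ‖g n w - w‖ := by
    calc ‖1 + w‖ = ‖(1 + g n w) - (g n w - w)‖ := by congr 1; ring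
      _ ≤ _ := norm_sub_le _ _
  linarith

theorem lt_four_pow (k : ℕ) (hk : 1 ≤ k) : k + 2 ≤ 4 ^ k := by
  induction k with
  | zero => omega
  | succ k ih =>
    rcases Nat.eq_zero_or_pos k with h | h
    · subst h; norm_num
    · have := ih h
      rw [pow_succ]
      omega

/-- between two powers of four -/
theorem block {k : ℕ} (hk : 1 ≤ k) {ζ : ℂ} (hζ : ‖ζ‖ = 1)
    (h : (1 / 2 : ℝ) ^ k ≤ ‖1 + G (4 ^ k) ζ‖) (m : ℕ) (hm : 4 ^ k + m < 4 ^ (k + 1)) :
    (1 / 2 : ℝ) ^ k / 2 * (1 + (1 / 2) ^ m) ≤ ‖1 + G (4 ^ k + m) ζ‖ := by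
  induction m with
  | zero =>
    rw [add_zero, pow_zero]
    linarith
  | succ m ih =>
    have ih' := ih (by omega)
    have hne : ¬ ∃ j : ℕ, 4 ^ k + (m + 1) = 4 ^ j := by
      rintro ⟨j, hj⟩
      have h1 : 4 ^ k < 4 ^ j := by omega
      have h2 : 4 ^ j < 4 ^ (k + 1) := by omega
      have h3 : k < j := (Nat.pow_lt_pow_iff_right (by norm_num)).1 h1
      have h4 : j < k + 1 := (Nat.pow_lt_pow_iff_right (by norm_num)).1 h2
      omega
    set d : ℝ := (1 / 2 : ℝ) ^ k / 2 with hd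
    have hd0 : 0 < d := by positivity
    have h1 : d ≤ ‖1 + G (4 ^ k + m) ζ‖ := by
      refine le_trans ?_ ih'
      have : (0 : ℝ) < (1 / 2) ^ m := by positivity
      nlinarith
    have h2 := step hne (norm_G_eq (4 ^ k + m) hζ) hd0 h1
    have h3 : g (4 ^ k + (m + 1)) (G (4 ^ k + m) ζ) = G (4 ^ k + (m + 1)) ζ := rfl
    rw [h3] at h2
    refine le_trans ?_ h2
    have h4 : 4 * (1 / 4) ^ (4 ^ k + (m + 1) + 1) / d ≤ d * (1 / 2) ^ (m + 1) := by
      rw [div_le_iff₀ hd0]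
      have h5 : d * (1 / 2) ^ (m + 1) * d = (1 / 4) ^ (k + 1) * (1 / 2) ^ (m + 1) := by
        rw [hd]
        have h6 : ((1 : ℝ) / 4) ^ (k + 1) = (1 / 2) ^ k * (1 / 2) ^ k * (1 / 4) := by
          rw [← mul_pow]; norm_num; ring
        rw [h6]; ring
      rw [h5]
      have h7 : (4 : ℝ) * (1 / 4) ^ (4 ^ k + (m + 1) + 1) = (1 / 4) ^ (4 ^ k) * (1 / 4) ^ (m + 1) := by
        rw [pow_add, pow_add]; ring
      rw [h7]
      have h8 : ((1 : ℝ) / 4) ^ (4 ^ k) ≤ (1 / 4) ^ (k + 1) :=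
        pow_le_pow_of_le_one (by norm_num) (by norm_num) (by have := lt_four_pow k hk; omega)
      have h9 : ((1 : ℝ) / 4) ^ (m + 1) ≤ (1 / 2) ^ (m + 1) :=
        pow_le_pow_left₀ (by norm_num) (by norm_num) _
      gcongr
    have h5 : d * (1 + (1 / 2) ^ m) = d * (1 + (1 / 2) ^ (m + 1)) + d * (1 / 2) ^ (m + 1) := by
      rw [pow_succ]; ring
    linarith

/-- Harmonic measure estimate. -/
theorem measure_le (n : ℕ) {η : ℝ} (hη : 0 < η) (hη1 : η < 1) :
    volume ({θ : ℝ | ‖1 + G n (Complex.exp (θ * Complex.I))‖ < η} ∩ Ioc 0 (2 * Real.pi)) ≤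
      ENNReal.ofReal (8 * Real.pi * η) := by
  have hpi := Real.pi_pos
  set s : ℝ := 1 - η with hs
  have hs0 : 0 < s := by rw [hs]; linarith
  have hs1 : s < 1 := by rw [hs]; linarith
  set u : ℂ → ℂ := fun z => (1 - (s : ℂ) * G n z) / (1 + (s : ℂ) * G n z) with hu
  have hsabs : |s| < 1 := by rw [abs_of_pos hs0]; exact hs1
  have hne : ∀ z : ℂ, ‖z‖ ≤ 1 → 1 + (s : ℂ) * G n z ≠ 0 := fun z hz =>
    den_ne hsabs ((norm_G_le n hz).trans hz)
  have hdiff : ∀ z : ℂ, ‖z‖ ≤ 1 → DifferentiableAt ℂ u z := by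
    intro z hz
    have h1 := G_diff n hz
    exact ((h1.const_mul _).const_sub _).div ((h1.const_mul _).const_add _) (hne z hz)
  have havg : Real.circleAverage u 0 1 = u 0 := by
    apply DiffContOnCl.circleAverage
    rw [abs_one]
    constructor
    · intro z hz
      exact (hdiff z (mem_ball_zero_iff.1 hz).le).differentiableWithinAt
    · rw [closure_ball _ one_ne_zero]
      intro z hz
      exact (hdiff z (mem_closedBall_zero_iff.1 hz)).continuousAt.continuousWithinAt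
  have hu0 : u 0 = 1 := by simp [hu, G_zero]
  rw [Real.circleAverage_def, hu0] at havg
  have hcm : ∀ θ : ℝ, circleMap 0 1 θ = Complex.exp (θ * Complex.I) := by
    intro θ; simp [circleMap]
  simp only [hcm] at havg
  have hcontu : Continuous fun θ : ℝ => u (Complex.exp (θ * Complex.I)) := by
    rw [continuous_iff_continuousAt]
    intro θ
    have h1 : ContinuousAt u (Complex.exp (θ * Complex.I)) :=
      (hdiff _ (Complex.norm_exp_ofReal_mul_I θ).le).continuousAt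
    exact ContinuousAt.comp (f := fun θ : ℝ => Complex.exp (θ * Complex.I)) h1 (by fun_prop)
  have hint : ∫ θ in (0:ℝ)..(2 * Real.pi), (u (Complex.exp (θ * Complex.I))).re = 2 * Real.pi := by
    have h1 : (∫ θ in (0:ℝ)..(2 * Real.pi), u (Complex.exp (θ * Complex.I))) = 2 * Real.pi := by
      have h2 : ((2 * Real.pi : ℝ)⁻¹ : ℂ) * ∫ θ in (0:ℝ)..(2 * Real.pi), u (Complex.exp (θ * Complex.I)) = 1 := by
        rw [← havg, Complex.real_smul]
        push_cast
        rfl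
      have h3 : ((2 * Real.pi : ℝ) : ℂ) ≠ 0 := by exact_mod_cast (by positivity : (2 * Real.pi : ℝ) ≠ 0)
      have h4 := congrArg (fun x => ((2 * Real.pi : ℝ) : ℂ) * x) h2
      rw [← mul_assoc, mul_inv_cancel₀ h3, one_mul, mul_one] at h4
      rw [h4]; push_cast; rfl
    have h2 : ∫ θ in (0:ℝ)..(2 * Real.pi), (u (Complex.exp (θ * Complex.I))).re =
        (∫ θ in (0:ℝ)..(2 * Real.pi), u (Complex.exp (θ * Complex.I))).re :=
      Complex.reCLM.intervalIntegral_comp_comm (hcontu.intervalIntegrable 0 (2 * Real.pi))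
    rw [h2, h1]
    simp
  have hre : ∀ θ : ℝ, (u (Complex.exp (θ * Complex.I))).re =
      (1 - s ^ 2) / ‖1 + (s : ℂ) * G n (Complex.exp (θ * Complex.I))‖ ^ 2 := by
    intro θ
    have hw : ‖G n (Complex.exp (θ * Complex.I))‖ = 1 := norm_G_eq n (Complex.norm_exp_ofReal_mul_I θ)
    set w := G n (Complex.exp (θ * Complex.I)) with hwdef
    have h1 : w.re ^ 2 + w.im ^ 2 = 1 := by
      have := Complex.sq_norm w
      rw [hw, Complex.normSq_apply] at this
      nlinarith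
    show ((1 - (s : ℂ) * w) / (1 + (s : ℂ) * w)).re = _
    rw [Complex.div_re, ← Complex.normSq_eq_norm_sq]
    have h2 : (1 - (s : ℂ) * w).re * (1 + (s : ℂ) * w).re + (1 - (s : ℂ) * w).im * (1 + (s : ℂ) * w).im =
        1 - s ^ 2 := by
      simp
      nlinarith
    rw [← add_div, h2]
  have hnn : ∀ θ : ℝ, 0 ≤ (u (Complex.exp (θ * Complex.I))).re := by
    intro θ
    rw [hre]
    apply div_nonneg _ (by positivity)
    nlinarith
  set E : Set ℝ := {θ : ℝ | ‖1 + G n (Complex.exp (θ * Complex.I))‖ < η} with hE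
  have hbig : ∀ θ ∈ E, 1 / (4 * η) ≤ (u (Complex.exp (θ * Complex.I))).re := by
    intro θ hθ
    have hθ' : ‖1 + G n (Complex.exp (θ * Complex.I))‖ < η := hθ
    rw [hre]
    have hw : ‖G n (Complex.exp (θ * Complex.I))‖ = 1 := norm_G_eq n (Complex.norm_exp_ofReal_mul_I θ)
    set w := G n (Complex.exp (θ * Complex.I)) with hwdef
    have h1 : ‖1 + (s : ℂ) * w‖ ≤ 2 * η := by
      calc ‖1 + (s : ℂ) * w‖ = ‖(1 + w) - ((1 - s : ℝ) : ℂ) * w‖ := by congr 1; push_cast; ring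
        _ ≤ ‖1 + w‖ + ‖((1 - s : ℝ) : ℂ) * w‖ := norm_sub_le _ _
        _ ≤ η + η := by
          gcongr
          rw [norm_mul, hw, mul_one, Complex.norm_real, Real.norm_of_nonneg (by linarith), hs]
          linarith
        _ = 2 * η := by ring
    have h2 : 0 < ‖1 + (s : ℂ) * w‖ := norm_pos_iff.2 (den_ne hsabs hw.le)
    have h3 : ‖1 + (s : ℂ) * w‖ ^ 2 ≤ (2 * η) ^ 2 := pow_le_pow_left₀ h2.le h1 2
    have h4 : η ≤ 1 - s ^ 2 := by rw [hs]; nlinarith
    have h5 : 0 ≤ 1 - s ^ 2 := by linarith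
    calc 1 / (4 * η) = η / (2 * η) ^ 2 := by field_simp; norm_num
      _ ≤ (1 - s ^ 2) / ‖1 + (s : ℂ) * w‖ ^ 2 := by gcongr
  have hEm : MeasurableSet E := by
    have h1 : Continuous fun θ : ℝ => ‖1 + G n (Complex.exp (θ * Complex.I))‖ := by
      rw [continuous_iff_continuousAt]
      intro θ
      have h1 : ContinuousAt (G n) (Complex.exp (θ * Complex.I)) :=
        (G_diff n (Complex.norm_exp_ofReal_mul_I θ).le).continuousAt
      have h2 : ContinuousAt (fun θ : ℝ => G n (Complex.exp (θ * Complex.I))) θ :=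
        ContinuousAt.comp (f := fun θ : ℝ => Complex.exp (θ * Complex.I)) h1 (by fun_prop)
      exact (h2.const_add 1).norm
    exact (isOpen_lt h1 continuous_const).measurableSet
  -- Markov
  have hI : IntegrableOn (fun θ : ℝ => (u (Complex.exp (θ * Complex.I))).re) (Ioc 0 (2 * Real.pi)) := by
    have := (Complex.continuous_re.comp hcontu).intervalIntegrable (μ := volume) 0 (2 * Real.pi)
    rw [intervalIntegrable_iff_integrableOn_Ioc_of_le (by positivity)] at this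
    exact this
  rw [intervalIntegral.integral_of_le (by positivity)] at hint
  have hlin : ∫⁻ θ in Ioc (0:ℝ) (2 * Real.pi), ENNReal.ofReal (u (Complex.exp (θ * Complex.I))).re =
      ENNReal.ofReal (2 * Real.pi) := by
    rw [← ofReal_integral_eq_lintegral_ofReal hI (Eventually.of_forall hnn), hint]
  have hmark : ENNReal.ofReal (1 / (4 * η)) * volume (E ∩ Ioc 0 (2 * Real.pi)) ≤
      ENNReal.ofReal (2 * Real.pi) := by
    rw [← hlin]
    calc ENNReal.ofReal (1 / (4 * η)) * volume (E ∩ Ioc 0 (2 * Real.pi))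
        = ∫⁻ θ in E ∩ Ioc 0 (2 * Real.pi), ENNReal.ofReal (1 / (4 * η)) := by
          rw [setLIntegral_const]
      _ ≤ ∫⁻ θ in E ∩ Ioc 0 (2 * Real.pi), ENNReal.ofReal (u (Complex.exp (θ * Complex.I))).re := by
          apply setLIntegral_mono' (hEm.inter measurableSet_Ioc)
          intro θ hθ
          exact ENNReal.ofReal_le_ofReal (hbig θ hθ.1)
      _ ≤ _ := lintegral_mono_set inter_subset_right
  have h1 : volume (E ∩ Ioc 0 (2 * Real.pi)) =
      ENNReal.ofReal (4 * η) * (ENNReal.ofReal (1 / (4 * η)) * volume (E ∩ Ioc 0 (2 * Real.pi))) := by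
    rw [← mul_assoc, ← ENNReal.ofReal_mul (by positivity)]
    have : 4 * η * (1 / (4 * η)) = 1 := by field_simp
    rw [this, ENNReal.ofReal_one, one_mul]
  rw [h1]
  calc ENNReal.ofReal (4 * η) * (ENNReal.ofReal (1 / (4 * η)) * volume (E ∩ Ioc 0 (2 * Real.pi)))
      ≤ ENNReal.ofReal (4 * η) * ENNReal.ofReal (2 * Real.pi) := by gcongr
    _ = ENNReal.ofReal (8 * Real.pi * η) := by
      rw [← ENNReal.ofReal_mul (by positivity)]
      congr 1
      ring

theorem ae_eventually : ∀ᵐ θ : ℝ ∂(volume.restrict (Ioc 0 (2 * Real.pi))), ∀ᶠ k : ℕ in atTop,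
    (1 / 2 : ℝ) ^ k ≤ ‖1 + G (4 ^ k) (Complex.exp (θ * Complex.I))‖ := by
  have h1 : (∑' k : ℕ, (volume.restrict (Ioc 0 (2 * Real.pi)))
      {θ : ℝ | ‖1 + G (4 ^ (k + 1)) (Complex.exp (θ * Complex.I))‖ < (1 / 2 : ℝ) ^ (k + 1)}) ≠ ⊤ := by
    have h2 : ∀ k : ℕ, (volume.restrict (Ioc 0 (2 * Real.pi)))
        {θ : ℝ | ‖1 + G (4 ^ (k + 1)) (Complex.exp (θ * Complex.I))‖ < (1 / 2 : ℝ) ^ (k + 1)} ≤
        ENNReal.ofReal (8 * Real.pi * (1 / 2) ^ (k + 1)) := by
      intro k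
      rw [Measure.restrict_apply' measurableSet_Ioc]
      exact measure_le _ (by positivity) (pow_lt_one₀ (by norm_num) (by norm_num) (by omega))
    refine ne_top_of_le_ne_top ?_ (ENNReal.tsum_le_tsum h2)
    have h3 : Summable fun k : ℕ => 8 * Real.pi * (1 / 2 : ℝ) ^ (k + 1) := by
      apply Summable.mul_left
      exact (summable_nat_add_iff 1).2 (summable_geometric_of_lt_one (by norm_num) (by norm_num))
    exact h3.tsum_ofReal_ne_top
  filter_upwards [ae_eventually_notMem h1] with θ hθ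
  obtain ⟨K, hK⟩ := eventually_atTop.1 hθ
  refine eventually_atTop.2 ⟨K + 1, fun k hk => ?_⟩
  obtain ⟨j, rfl⟩ : ∃ j, k = j + 1 := ⟨k - 1, by omega⟩
  have h2 := hK j (by omega)
  exact not_lt.1 h2

theorem dw_point {ζ : ℂ} (hζ : ‖ζ‖ = 1)
    (h : ∀ᶠ k : ℕ in atTop, (1 / 2 : ℝ) ^ k ≤ ‖1 + G (4 ^ k) ζ‖) :
    Tendsto (fun n => B (a n) (G n ζ)) atTop (𝓝 1) := by
  obtain ⟨K, hK⟩ := eventually_atTop.1 h
  have key : ∀ k : ℕ, max K 1 ≤ k → ∀ n : ℕ, 4 ^ k ≤ n → n < 4 ^ (k + 1) →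
      ‖B (a n) (G n ζ) - 1‖ ≤ 8 * (1 / 2 : ℝ) ^ k := by
    intro k hk n h1 h2
    obtain ⟨m, rfl⟩ := Nat.exists_eq_add_of_le h1
    have hk1 : 1 ≤ k := (le_max_right _ _).trans hk
    have h3 := block hk1 hζ (hK k ((le_max_left _ _).trans hk)) m h2
    have h4 : (1 / 2 : ℝ) ^ k / 2 ≤ ‖1 + G (4 ^ k + m) ζ‖ := by
      refine le_trans ?_ h3
      have h5 : (0 : ℝ) < (1 / 2) ^ m := by positivity
      have h6 : (0 : ℝ) < (1 / 2) ^ k := by positivity
      nlinarith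
    have hGn := norm_G_eq (4 ^ k + m) hζ
    have ha4 : 1 / 4 ≤ a (4 ^ k + m) := by
      unfold a
      have h5 : (4 : ℝ) ≤ ((4 ^ k + m : ℕ) : ℝ) := by
        have : 4 ^ 1 ≤ 4 ^ k := Nat.pow_le_pow_right (by norm_num) hk1
        exact_mod_cast (by omega : 4 ≤ 4 ^ k + m)
      have h6 : 1 / (((4 ^ k + m : ℕ) : ℝ) + 1) ≤ 1 / 4 := by
        apply one_div_le_one_div_of_le (by norm_num)
        linarith
      linarith
    have h5 : (1 / 2 : ℝ) ^ k / 4 ≤ ‖1 + (a (4 ^ k + m) : ℂ) * G (4 ^ k + m) ζ‖ := by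
      apply (abs_le_of_sq_le_sq' _ (norm_nonneg _)).2
      rw [sq_id _ hGn]
      have h6 : ((1 / 2 : ℝ) ^ k / 2) ^ 2 ≤ ‖1 + G (4 ^ k + m) ζ‖ ^ 2 :=
        pow_le_pow_left₀ (by positivity) h4 2
      nlinarith [sq_nonneg (1 - a (4 ^ k + m)), sq_nonneg ‖1 + G (4 ^ k + m) ζ‖]
    have h6 := B_near_one (n := 4 ^ k + m) hGn.le
    have h7 : 1 / (((4 ^ k + m : ℕ) : ℝ) + 1) ≤ (1 / 2 : ℝ) ^ k * (1 / 2) ^ k := by
      have h8 : (1 / 2 : ℝ) ^ k * (1 / 2) ^ k = 1 / 4 ^ k := by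
        rw [← mul_pow, one_div (4 ^ k : ℝ), ← inv_pow]; norm_num
      rw [h8]
      apply one_div_le_one_div_of_le (by positivity)
      push_cast
      have : (0 : ℝ) ≤ m := Nat.cast_nonneg m
      linarith
    have h8 : ‖B (a (4 ^ k + m)) (G (4 ^ k + m) ζ) - 1‖ * ((1 / 2 : ℝ) ^ k / 4) ≤
        2 * ((1 / 2 : ℝ) ^ k * (1 / 2) ^ k) := by
      calc _ ≤ ‖B (a (4 ^ k + m)) (G (4 ^ k + m) ζ) - 1‖ *
            ‖1 + (a (4 ^ k + m) : ℂ) * G (4 ^ k + m) ζ‖ := by gcongr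
        _ ≤ _ := h6
        _ ≤ _ := by gcongr
    have h9 : (0 : ℝ) < (1 / 2) ^ k := by positivity
    by_contra hcon
    push Not at hcon
    nlinarith
  rw [Metric.tendsto_atTop]
  intro ε hε
  obtain ⟨k0, hk0⟩ := exists_pow_lt_of_lt_one (by positivity : (0 : ℝ) < ε / 8)
    (by norm_num : (1 / 2 : ℝ) < 1)
  refine ⟨4 ^ (max k0 (max K 1)), fun n hn => ?_⟩
  set k := Nat.log 4 n with hkdef
  have hn0 : n ≠ 0 := by
    have : 0 < 4 ^ (max k0 (max K 1)) := by positivity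
    omega
  have h1 : 4 ^ k ≤ n := Nat.pow_log_le_self 4 hn0
  have h2 : n < 4 ^ (k + 1) := Nat.lt_pow_succ_log_self (by norm_num) n
  have h3 : max k0 (max K 1) ≤ k := (Nat.le_log_iff_pow_le (by norm_num) hn0).2 hn
  have h4 := key k ((le_max_right _ _).trans h3) n h1 h2
  rw [dist_eq_norm]
  have h5 : (1 / 2 : ℝ) ^ k ≤ (1 / 2) ^ k0 :=
    pow_le_pow_of_le_one (by norm_num) (by norm_num) ((le_max_left _ _).trans h3)
  linarith

/-- There is a sequence of inner functions `f_n`, none of which is injective on the disc (so that none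
is an automorphism), such that the forward composition `F_n = f_n ∘ ⋯ ∘ f_0` is contracting,
`|F_n (z)| → 1` for every `z` in the disc, the series `∑ (1 - |F_n (0)|)` diverges, and almost every
point of the circle is in the Denjoy-Wolff set of `(F_n)`. -/
theorem result : ∃ f : ℕ → ℂ → ℂ, (∀ n, IsInner (f n) ∧ ¬ InjOn (f n) (ball 0 1)) ∧
    (∀ z ∈ ball (0 : ℂ) 1, ∀ w ∈ ball (0 : ℂ) 1,
      Tendsto (fun n => hypDist (forward f n z) (forward f n w)) atTop (𝓝 0)) ∧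
    (∀ z ∈ ball (0 : ℂ) 1, Tendsto (fun n => ‖forward f n z‖) atTop (𝓝 1)) ∧
    (¬ Summable fun n => 1 - ‖forward f n 0‖) ∧
    volume {θ : ℝ | θ ∈ Ioc 0 (2 * Real.pi) ∧
      Complex.exp (θ * Complex.I) ∉ DenjoyWolffSet (forward f)} = 0 := by
  refine ⟨f, fun n => ⟨f_inner n, f_not_inj n⟩, fun z hz w hw => ?_, fun z hz => ?_, ?_, ?_⟩
  · exact contracting (mem_ball_zero_iff.1 hz) (mem_ball_zero_iff.1 hw)
  · have := (forward_tendsto (mem_ball_zero_iff.1 hz)).norm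
    rwa [norm_one] at this
  · have h1 : ∀ n, 1 - ‖forward f n 0‖ = 1 / ((n : ℝ) + 1) := by
      intro n
      rw [forward_eq n (by simp), G_zero]
      have : B (a n) 0 = ((a n : ℝ) : ℂ) := by simp [B]
      rw [this, Complex.norm_real, Real.norm_of_nonneg (a_nonneg n)]
      unfold a
      ring
    simp only [h1]
    intro h
    have h2 : Summable fun n : ℕ => 1 / (n : ℝ) := by
      rw [← summable_nat_add_iff 1]
      push_cast
      exact h
    exact Real.not_summable_one_div_natCast h2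
  · have h1 := ae_eventually
    rw [ae_restrict_iff' measurableSet_Ioc] at h1
    refine measure_mono_null ?_ h1
    rintro θ ⟨hθ, hnot⟩ hcon
    apply hnot
    have hζ : ‖Complex.exp (θ * Complex.I)‖ = 1 := Complex.norm_exp_ofReal_mul_I θ
    refine ⟨hζ, fun n => B (a n) (G n (Complex.exp (θ * Complex.I))), fun n => ?_, ?_⟩
    · have h2 : ContinuousAt (fun z => B (a n) (G n z)) (Complex.exp (θ * Complex.I)) :=
        ((B_diff (abs_a n) (norm_G_eq n hζ).le).comp _ (G_diff n hζ.le)).continuousAt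
      refine (radial h2).congr' ?_
      have h3 : Ioo (0 : ℝ) 1 ∈ 𝓝[<] (1 : ℝ) := Ioo_mem_nhdsLT (show (0 : ℝ) < 1 from one_pos)
      filter_upwards [h3] with r hr
      rw [forward_eq n]
      rw [norm_mul, hζ, mul_one, Complex.norm_real, Real.norm_of_nonneg hr.1.le]
      exact hr.2.le
    · have h2 := dw_point hζ (hcon hθ)
      have h3 := forward_tendsto (z := 0) (by simp)
      have h4 := (h2.sub h3).norm
      simpa using h4

end Pool.Agent.Results.MP_9b5b1e_an.ContractingFullDenjoyWolff
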